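import Pool.Agent.TH894.LG6

/-!
# The asymptotic formula of Hardy and Littlewood for prime tuples, for shifts which arise from arbitrary
integers by `C log log X` changes of digits

Definitions used: `Pool.Agent.H373R2.T7.singZ a z`: the partial product over the primes `p ≤ z` of
`(1 - ν(p) / p) / (1 - 1 / p) ^ (s + 1)`, where `ν(p)` is the number of `r < p` for which `p` divides
`r (r + a 1) ... (r + a s)`; `Pool.Agent.H373R2.T7.tupleCount a X`: the sum of
`log p * ∏ i, log (p + a i)` over the primes `p ≤ X` for which all `p + a i` are primes;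
`Pool.Agent.H373R2.T7.Admissible a`: for every prime `p` there is an `r` such that `p` divides neither
`r` nor any `r + a i`; `Pool.Agent.H560R3.GB.primeTuples a X`: the number of primes `p ≤ X` for which
all `p + a i` are primes.
-/

set_option autoImplicit false

namespace Pool.Agent.Results.MP_68a45e_nt.FewDigitChanges

open Finset Pool.Agent.H560R3.GB
open Pool.Agent.H373R2.T7 (singZ tupleCount Admissible)

/-- The formula of Hardy and Littlewood for the tuple `p, p + a 1, ..., p + a s` and the primes `p ≤ X`: the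
singular series converges, its sum `S` predicts the weighted number of prime tuples with an error of
at most `X / log ^ U X`, and, if the shifts are admissible, `S` is positive and `S X / log ^ (s + 1) X`
predicts the number of prime tuples with a relative error of at most `ε`. -/
def Holds {s : ℕ} (ε : ℝ) (U X : ℕ) (a : Fin s → ℕ) : Prop :=
  ∃ S : ℝ, Filter.Tendsto (fun z => singZ (fun i => (a i : ℤ)) z) Filter.atTop (nhds S) ∧
    |tupleCount (fun i => (a i : ℤ)) X - S * X| ≤ (X : ℝ) / Real.log X ^ U ∧
    (Admissible (fun i => (a i : ℤ)) → 0 < S ∧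
      |(primeTuples a X : ℝ) - S * (X / Real.log X ^ (s + 1))| ≤ ε * (S * (X / Real.log X ^ (s + 1))))

/-- The digit number `i` (counted from the right, beginning with `0`) of `n` in base `b`. -/
def digit (b i n : ℕ) : ℕ := n / b ^ i % b

/-- The number which arises from the number `N` with at most `K` digits in base `b`, if for every `i ∈ T`
the digit number `i` is replaced by `f i`. -/
def change (b K N : ℕ) (f : ℕ → ℕ) (T : Finset ℕ) : ℕ :=
  ∑ i ∈ range K, (if i ∈ T then f i else digit b i N) * b ^ i

/-- The positions `1, ..., K - 1` of a number with at most `K` digits are divided into three windows: the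
first and the last `h` positions and the rest. -/
def window (h K : ℕ) (q : Fin 3) : Finset ℕ :=
  if q = 0 then Ico 1 (1 + h) else if q = 1 then Ico (1 + h) (K - h) else Ico (K - h) K

/-- The choices of `r 0`, `r 1`, `r 2` positions in the three windows. -/
def choices (h K : ℕ) (r : Fin 3 → ℕ) : Finset (Fin 3 → Finset ℕ) :=
  Fintype.piFinset (fun q => powersetCard (r q) (window h K q))

open Classical in
/-- For the integers `N 1, ..., N s`, choose for every `i` positions `T i` (`r i q` of them in the window `q`), and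
replace the digits of `N i` at these positions by those prescribed by `f i`: the number of the choices for which the
formula of Hardy and Littlewood for the resulting shifts is false. -/
noncomputable def exceptions {s : ℕ} (ε : ℝ) (U X b h K : ℕ) (N : Fin s → ℕ) (f : Fin s → ℕ → ℕ) (r : Fin s → Fin 3 → ℕ) : ℕ :=
  ((Fintype.piFinset fun i => choices h K (r i)).filter fun T =>
    ¬ Holds ε U X (fun i => change b K (N i) (f i) (T i 0 ∪ T i 1 ∪ T i 2))).card

lemma change_SM (b K N : ℕ) (f : ℕ → ℕ) (T : Finset ℕ) : change b K N f T = Pool.Agent.TH894.SM.change b K N f T := rfl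

lemma holds_HLs {s : ℕ} (ε : ℝ) (U X : ℕ) (a : Fin s → ℕ) : Holds ε U X a ↔ Pool.Agent.W93.TD.HLs ε U X a := Iff.rfl

/-- For every base `b ≥ 2` there is an `R ≥ 1` with the following property. Let `s ≥ 1`, `U`, `B` and `ε > 0` be given.
Then there are `C ≥ 1` and `A` such that for every sufficiently large `K`, every `X` with `b ^ K / B ≤ X ≤ b ^ K` and all
integers `0 ≤ N 1, ..., N s < b ^ K` the following holds.

Let `l = ⌊log_b (K + 1)⌋ + 1` and `h = A l`, and divide the positions `1, ..., K - 1` of the digits into three windows: the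
first `h` and the last `h` of them, and the rest. Prescribe for every `i` and every position `j` a digit `f i j` different
from the digit of `N i`. For every `i` let `r i 0`, `r i 1`, `r i 2` be integers between `C l` and `1 / R` times the length
of the respective window (by the first assertion one can take `r i q = C l`, so that only `3 C l = O(log log X)` of
the digits of each `N i` are changed). If for every `i` one chooses `r i 0`, `r i 1`, `r i 2` positions in the three windows
and replaces the digits of `N i` at these positions, then, for all but at most a proportion `1 / log ^ U X` of the choices,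
the formula of Hardy and Littlewood for the primes `p ≤ X` and the tuple `p, p + a 1, ..., p + a s` holds for the integers
`a 1, ..., a s` obtained. -/
theorem result (b : ℕ) (hb : 2 ≤ b) : ∃ R : ℕ, 1 ≤ R ∧ ∀ s : ℕ, 1 ≤ s → ∀ U B : ℕ, ∀ ε : ℝ, 0 < ε → ∃ C A K₀ : ℕ, 1 ≤ C ∧
    ∀ K : ℕ, K₀ ≤ K → (∀ q, R * (C * (Nat.log b (K + 1) + 1)) ≤ (window (A * (Nat.log b (K + 1) + 1)) K q).card) ∧
    ∀ X : ℕ, b ^ K ≤ B * X → X ≤ b ^ K → ∀ N : Fin s → ℕ, (∀ i, N i < b ^ K) →
    ∀ f : Fin s → ℕ → ℕ, (∀ i j, f i j < b ∧ f i j ≠ digit b j (N i)) →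
    ∀ r : Fin s → Fin 3 → ℕ, (∀ i q, C * (Nat.log b (K + 1) + 1) ≤ r i q ∧
      R * r i q ≤ (window (A * (Nat.log b (K + 1) + 1)) K q).card) →
    (exceptions ε U X b (A * (Nat.log b (K + 1) + 1)) K N f r : ℝ) ≤
      (∏ i, (choices (A * (Nat.log b (K + 1) + 1)) K (r i)).card : ℕ) / Real.log X ^ U := by
  classical
  obtain ⟨R, hR, H⟩ := Pool.Agent.TH894.LG.tup_final b hb
  refine ⟨8 * R, by omega, fun s hs U B ε hε => ?_⟩
  obtain ⟨C, hC, H1⟩ := H s hs U B ε hε
  obtain ⟨A, hA, K₀, H2⟩ := H1 (8 * R * C)
  obtain ⟨k1, h1⟩ := Pool.Agent.W93.DG.hh_small b A 4 hb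
  refine ⟨C, 2 * A, K₀ + k1 + 8, hC, fun K hK => ?_⟩
  have hwin : ∀ q, window (2 * A * (Nat.log b (K + 1) + 1)) K q =
      Pool.Agent.TH894.SM.Win (Pool.Agent.W93.DG.hh b A (K + 1)) (K + 1) q := by
    intro q
    unfold window Pool.Agent.TH894.SM.Win Pool.Agent.W93.DG.hh
    rw [Nat.add_sub_cancel]
  have hsm := h1 (K + 1) (by omega)
  have hlow : 8 * R * (C * (Nat.log b (K + 1) + 1)) ≤ Pool.Agent.W93.DG.hh b A (K + 1) := by
    unfold Pool.Agent.W93.DG.hh
    calc 8 * R * (C * (Nat.log b (K + 1) + 1)) = (8 * R * C) * (Nat.log b (K + 1) + 1) := by ring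
      _ ≤ (2 * A) * (Nat.log b (K + 1) + 1) := Nat.mul_le_mul_right _ (by omega)
  refine ⟨fun q => ?_, fun X hX1 hX2 N hN f hf r hr => ?_⟩
  · rw [hwin]
    refine hlow.trans ?_
    unfold Pool.Agent.TH894.SM.Win
    split_ifs
    · rw [Nat.card_Ico]; omega
    · rw [Nat.card_Ico]; omega
    · rw [Nat.card_Ico]; omega
  have hun : ∀ S : Fin 3 → Finset ℕ, Pool.Agent.TH894.SM.un S = S 0 ∪ S 1 ∪ S 2 := by
    intro S
    unfold Pool.Agent.TH894.SM.un
    ext x
    simp only [mem_biUnion, mem_univ, true_and, mem_union]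
    constructor
    · rintro ⟨q, hq⟩
      have hq3 : q = 0 ∨ q = 1 ∨ q = 2 := by fin_cases q <;> simp
      rcases hq3 with rfl | rfl | rfl
      · exact Or.inl (Or.inl hq)
      · exact Or.inl (Or.inr hq)
      · exact Or.inr hq
    · rintro ((h | h) | h)
      · exact ⟨0, h⟩
      · exact ⟨1, h⟩
      · exact ⟨2, h⟩
  have hch : ∀ r : Fin 3 → ℕ, choices (2 * A * (Nat.log b (K + 1) + 1)) K r = Pool.Agent.TH894.LG.Ch b A K r := by
    intro r
    unfold choices Pool.Agent.TH894.LG.Ch
    simp only [hwin]
  have h3 := H2 K (by omega) X hX1 hX2 N hN f hf r (fun i q => (hr i q).1) (fun i q => by rw [← hwin]; exact (hr i q).2)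
  have h4 : exceptions ε U X b (2 * A * (Nat.log b (K + 1) + 1)) K N f r =
      ((Fintype.piFinset (fun i => Pool.Agent.TH894.LG.Ch b A K (r i))).filter
      (fun T => ¬ Pool.Agent.W93.TD.HLs ε U X (fun i => Pool.Agent.TH894.SM.change b K (N i) (f i) (Pool.Agent.TH894.SM.un (T i))))).card := by
    unfold exceptions
    simp only [hch, holds_HLs, change_SM, hun]
  have h5 : ((∏ i, (choices (2 * A * (Nat.log b (K + 1) + 1)) K (r i)).card : ℕ) : ℝ) = ∏ i, ((Pool.Agent.TH894.LG.Ch b A K (r i)).card : ℝ) := by
    simp only [hch]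
    rw [Nat.cast_prod]
  rw [h4, h5, div_eq_mul_one_div, mul_comm (∏ i, ((Pool.Agent.TH894.LG.Ch b A K (r i)).card : ℝ))]
  exact h3

end Pool.Agent.Results.MP_68a45e_nt.FewDigitChanges
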