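import Mathlib
import Pool.Agent.TH891.BD.B8

/-!
The Hardy-Littlewood prime tuples conjecture: unconditional lower bounds with the conjectured constants for the
`(k+1)`-element patterns inside an arbitrary finite set `A` of integers with at least `lam * log N` elements, for every
`lam > k - 1/2`, through a Bombieri-Davenport second moment method in residue classes; and the number of the patterns
which reach a given fraction of the prediction.
-/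

namespace Pool.Agent.Results.MP_68a45e_nt.SharperUniversalBound
open Finset Pool.Agent.H387R2.Uni

open Classical in
theorem result :
    -- the conjectured constants are convergent products, positive for admissible patterns
    (∀ T : Finset ℕ, HasProd (fun p : Nat.Primes => locT T p) (CT T) ∧ (Adm T → 0 < CT T)) ∧
    -- lower bound for the sum over the patterns
    (∀ k q : ℕ, 1 ≤ k → 1 ≤ q → ∀ lam θ C : ℝ, (k : ℝ) - 1 / 2 < lam → 0 < θ →
      θ < ∏ i ∈ range k, (1 - (i + 1 / 2 : ℝ) / lam) →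
      ∃ N₀ : ℕ, ∀ N : ℕ, N₀ ≤ N → ∀ (c : ℕ) (A : Finset ℕ), (∀ a ∈ A, a ≡ c [MOD q]) →
        (∀ a ∈ A, (a : ℝ) ≤ Real.log N ^ C) → lam * ((Nat.totient q : ℝ) / q) * Real.log N ≤ A.card →
        θ * (∑ T ∈ A.powersetCard (k + 1), CT T) * (∫ t in (2:ℝ)..N, 1 / Real.log t ^ (k + 1)) ≤
          ∑ T ∈ A.powersetCard (k + 1), (piT T N : ℝ)) ∧
    -- lower bound for the weight of the patterns reaching the fraction `θ` of the prediction
    (∀ k : ℕ, 1 ≤ k → ∃ κ : ℝ, 0 < κ ∧ ∀ lam : ℝ, (k : ℝ) - 1 / 2 < lam → ∀ θ : ℝ, 0 < θ →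
      θ < ∏ i ∈ range k, (1 - (i + 1 / 2 : ℝ) / lam) → ∀ q : ℕ, 1 ≤ q → ∀ C : ℝ,
      ∃ N₀ : ℕ, ∀ N : ℕ, N₀ ≤ N → ∀ (c : ℕ) (A : Finset ℕ), (∀ a ∈ A, a ≡ c [MOD q]) →
        (∀ a ∈ A, (a : ℝ) ≤ Real.log N ^ C) → lam * ((Nat.totient q : ℝ) / q) * Real.log N ≤ A.card →
        κ * ((q : ℝ) / Nat.totient q) ^ k * (A.card : ℝ) ^ (k + 1) ≤ ∑ T ∈ A.powersetCard (k + 1), CT T ∧
        κ * (∏ i ∈ range k, (1 - (i + 1 / 2 : ℝ) / lam) - θ) * ∑ T ∈ A.powersetCard (k + 1), CT T ≤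
          ∑ T ∈ (A.powersetCard (k + 1)).filter (fun T => Adm T ∧
            θ * CT T * (∫ t in (2:ℝ)..N, 1 / Real.log t ^ (k + 1)) ≤ piT T N), CT T) ∧
    -- lower bound for their number, for dense subsets of an interval
    (∀ k : ℕ, 1 ≤ k → ∀ ρ δ : ℝ, 0 < ρ → 0 < δ → ∃ κ : ℝ, 0 < κ ∧
      ∀ lam : ℝ, (k : ℝ) - 1 / 2 < lam → ∀ θ : ℝ, 0 < θ →
      θ < ∏ i ∈ range k, (1 - (i + 1 / 2 : ℝ) / lam) → ∀ q : ℕ, 1 ≤ q → ∀ C : ℝ,
      ∃ N₀ : ℕ, ∀ N : ℕ, N₀ ≤ N → ∀ (c z H : ℕ) (A : Finset ℕ), (∀ a ∈ A, a ≡ c [MOD q]) →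
        A ⊆ Ico z (z + H) → (∀ a ∈ A, (a : ℝ) ≤ Real.log N ^ C) → ρ * H ≤ A.card →
        lam * ((Nat.totient q : ℝ) / q) * Real.log N ≤ A.card →
        κ * (∏ i ∈ range k, (1 - (i + 1 / 2 : ℝ) / lam) - θ) ^ (1 + δ) * (A.card : ℝ) ^ (k + 1) ≤
          (((A.powersetCard (k + 1)).filter (fun T => Adm T ∧
            θ * CT T * (∫ t in (2:ℝ)..N, 1 / Real.log t ^ (k + 1)) ≤ piT T N)).card : ℝ)) := by
  refine ⟨fun T => ⟨CT_hasProd T, fun hT => (Pool.Agent.TH891.SG.CT_pos_iff T).2 hT⟩, ?_, ?_, ?_⟩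
  · intro k q hk hq lam θ C hlam hθ0 hθ
    exact Pool.Agent.TH891.BD.universal2 k q hk hq lam θ C hlam hθ0 hθ
  · intro k hk
    exact Pool.Agent.TH891.BD.sharp2 k hk
  · intro k hk ρ δ hρ hδ
    exact Pool.Agent.TH891.BD.count2 k hk hρ hδ

end Pool.Agent.Results.MP_68a45e_nt.SharperUniversalBound
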