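import Mathlib
import Pool.Agent.TH891.SP.S7

/-!
The Hardy-Littlewood prime tuples conjecture: unconditional lower bounds with the conjectured constants on average over
*grids of shifts* `{ x_1(i_1) + ... + x_s(i_s) : i_j < m_j }` whose generators `x_j(i)` run through arbitrary sets
`A_1, ..., A_s` of integers with at least `lam * (log N) ^ (M / m_j)` elements, `M = m_1 ... m_s`: parallelograms
(`s = 2, m = (2, 2)`), combinatorial cubes (`m = (2, ..., 2)`), the sets `S_1 + ... + S_s` with `|S_j| = m_j`.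
-/

namespace Pool.Agent.Results.MP_68a45e_nt.SumsetPatterns
open Finset Pool.Agent.H387R2.Uni Pool.Agent.TH891.SP

open Classical in
theorem result :
    -- the conjectured constants are convergent products, positive for admissible patterns
    (∀ T : Finset ℕ, HasProd (fun p : Nat.Primes => locT T p) (CT T) ∧ (Adm T → 0 < CT T)) ∧
    -- for every shape `m` of grids
    (∀ (s : ℕ) (m : Fin s → ℕ) (M : ℕ), (∀ j, 1 ≤ m j) → ∏ j, m j = M →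
      -- lower bounds for the sum over the grids with distinct points
      (∀ lam θ C : ℝ, 0 < lam → 0 < θ → θ < 1 - (M : ℝ) * (M - 1) / (2 * lam) → ∀ q : ℕ, 1 ≤ q →
        ∃ N₀ : ℕ, ∀ N : ℕ, N₀ ≤ N → ∀ (c : Fin s → ℕ) (A : Fin s → Finset ℕ),
          (∀ j, ∀ a ∈ A j, a ≡ c j [MOD q]) → (∀ j, ∀ a ∈ A j, (a : ℝ) ≤ Real.log N ^ C) →
          (∀ j, lam * ((Nat.totient q : ℝ) / q * Real.log N) ^ (M / m j) ≤ (A j).card) →
          θ * (∑ x ∈ IX m A, CT (TT (pts m x))) * (∫ t in (2:ℝ)..N, 1 / Real.log t ^ M) ≤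
            ∑ x ∈ IX m A, (piT (TT (pts m x)) N : ℝ) ∧
          θ * (((q : ℝ) / Nat.totient q) ^ (M - 1) * ∏ j, ((A j).card : ℝ) ^ m j) *
            (∫ t in (2:ℝ)..N, 1 / Real.log t ^ M) ≤ ∑ x ∈ IX m A, (piT (TT (pts m x)) N : ℝ)) ∧
      -- lower bounds for the weight of the grids which reach the fraction `θ` of their own prediction
      (∃ κ : ℝ, 0 < κ ∧ ∀ lam θ C : ℝ, 0 < lam → 0 < θ → θ < 1 - (M : ℝ) * (M - 1) / (2 * lam) → ∀ q : ℕ, 1 ≤ q →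
        ∃ N₀ : ℕ, ∀ N : ℕ, N₀ ≤ N → ∀ (c : Fin s → ℕ) (A : Fin s → Finset ℕ),
          (∀ j, ∀ a ∈ A j, a ≡ c j [MOD q]) → (∀ j, ∀ a ∈ A j, (a : ℝ) ≤ Real.log N ^ C) →
          (∀ j, lam * ((Nat.totient q : ℝ) / q * Real.log N) ^ (M / m j) ≤ (A j).card) →
          κ * (1 - (M : ℝ) * (M - 1) / (2 * lam) - θ) * (∑ x ∈ IX m A, CT (TT (pts m x))) ≤
            ∑ x ∈ (IX m A).filter (fun x => Adm (TT (pts m x)) ∧
              θ * CT (TT (pts m x)) * (∫ t in (2:ℝ)..N, 1 / Real.log t ^ M) ≤ piT (TT (pts m x)) N),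
              CT (TT (pts m x)) ∧
          κ * (1 - (M : ℝ) * (M - 1) / (2 * lam) - θ) *
            (((q : ℝ) / Nat.totient q) ^ (M - 1) * ∏ j, ((A j).card : ℝ) ^ m j) ≤
            ∑ x ∈ (IX m A).filter (fun x => Adm (TT (pts m x)) ∧
              θ * CT (TT (pts m x)) * (∫ t in (2:ℝ)..N, 1 / Real.log t ^ M) ≤ piT (TT (pts m x)) N),
              CT (TT (pts m x))) ∧
      -- lower bound for their number, for dense subsets of intervals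
      (∀ ρ δ : ℝ, 0 < ρ → 0 < δ → ∃ κ : ℝ, 0 < κ ∧ ∀ lam θ C : ℝ, 0 < lam → 0 < θ →
        θ < 1 - (M : ℝ) * (M - 1) / (2 * lam) → ∀ q : ℕ, 1 ≤ q →
        ∃ N₀ : ℕ, ∀ N : ℕ, N₀ ≤ N → ∀ (c z : Fin s → ℕ) (H : ℕ) (A : Fin s → Finset ℕ),
          (∀ j, ∀ a ∈ A j, a ≡ c j [MOD q]) → (∀ j, A j ⊆ Ico (z j) (z j + H)) →
          (∀ j, ∀ a ∈ A j, (a : ℝ) ≤ Real.log N ^ C) → (∀ j, ρ * H ≤ (A j).card) →
          (∀ j, lam * ((Nat.totient q : ℝ) / q * Real.log N) ^ (M / m j) ≤ (A j).card) →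
          κ * (1 - (M : ℝ) * (M - 1) / (2 * lam) - θ) ^ (1 + δ) * ∏ j, ((A j).card : ℝ) ^ m j ≤
            (((IX m A).filter (fun x => Adm (TT (pts m x)) ∧
              θ * CT (TT (pts m x)) * (∫ t in (2:ℝ)..N, 1 / Real.log t ^ M) ≤ piT (TT (pts m x)) N)).card : ℝ))) := by
  have hexp : ∀ (s : ℕ) (m : Fin s → ℕ) (M : ℕ), (∀ j, 1 ≤ m j) → ∏ j, m j = M →
      ∀ j₀, ∏ j : {j // j ≠ j₀}, m j = M / m j₀ := by
    intro s m M hm hM j₀
    have h := Fintype.prod_eq_mul_prod_subtype_ne (fun j => m j) j₀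
    rw [← hM, h, Nat.mul_div_cancel_left _ (lt_of_lt_of_le Nat.zero_lt_one (hm j₀))]
  refine ⟨fun T => ⟨CT_hasProd T, fun hT => (Pool.Agent.TH891.SG.CT_pos_iff T).2 hT⟩, ?_⟩
  intro s m M hm hM
  have hE := hexp s m M hm hM
  subst hM
  refine ⟨?_, ?_, ?_⟩
  · intro lam θ C hlam hθ0 hθ q hq
    obtain ⟨N₀, h⟩ := grids m hm hlam hθ0 hθ q hq C
    exact ⟨N₀, fun N hN c A h1 h2 h3 => h N hN c A h1 h2 (fun j₀ => by rw [hE j₀]; exact h3 j₀)⟩
  · obtain ⟨κ, hκ, h⟩ := weight m hm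
    refine ⟨κ, hκ, ?_⟩
    intro lam θ C hlam hθ0 hθ q hq
    obtain ⟨N₀, h⟩ := h lam hlam θ hθ0 hθ q hq C
    exact ⟨N₀, fun N hN c A h1 h2 h3 => h N hN c A h1 h2 (fun j₀ => by rw [hE j₀]; exact h3 j₀)⟩
  · intro ρ δ hρ hδ
    obtain ⟨κ, hκ, h⟩ := number m hm hρ hδ
    refine ⟨κ, hκ, ?_⟩
    intro lam θ C hlam hθ0 hθ q hq
    obtain ⟨N₀, h⟩ := h lam hlam θ hθ0 hθ q hq C
    exact ⟨N₀, fun N hN c z H A h1 h2 h3 h4 h5 =>
      h N hN c z H A h1 h2 h3 h4 (fun j₀ => by rw [hE j₀]; exact h5 j₀)⟩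

end Pool.Agent.Results.MP_68a45e_nt.SumsetPatterns
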